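import Mathlib

/-! Counting tools: few earlier elements, dyadic classes, thinning, cuts. -/

namespace Pool.Agent.MP_e6c106_co.H32

open Finset

section
variable {α V β : Type*} [DecidableEq V] [LinearOrder β]

/-- Number of members of `A` with the same key as `a` and a smaller label. -/
def below (A : Finset α) (κ : α → V) (l : α → β) (a : α) : ℕ :=
  #(A.filter fun c => κ c = κ a ∧ l c < l a)

lemma below_lt {A : Finset α} {κ : α → V} {l : α → β} {a b : α} (ha : a ∈ A)
    (hk : κ a = κ b) (h : l a < l b) : below A κ l a < below A κ l b := by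
  unfold below
  apply card_lt_card
  refine ⟨fun c hc => ?_, fun hs => ?_⟩
  · simp only [mem_filter] at hc ⊢
    exact ⟨hc.1, hc.2.1.trans hk, hc.2.2.trans h⟩
  · have := hs (mem_filter.2 ⟨ha, hk, h⟩)
    simp at this

lemma card_classes {A : Finset α} (cls : α → ℕ) (Q B : ℕ) (h1 : ∀ a ∈ A, cls a < Q)
    (h2 : ∀ k, #(A.filter fun a => cls a = k) ≤ B) : #A ≤ Q * B := by
  classical
  have := card_le_mul_card_image_of_maps_to (s := A) (t := range Q) (f := cls)
    (fun a ha => mem_range.2 (h1 a ha)) B (fun k _ => h2 k)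
  simpa [mul_comm] using this

lemma card_few {A : Finset α} {κ : α → V} {l : α → β} (W : Finset V)
    (hW : ∀ a ∈ A, κ a ∈ W) (hl : Set.InjOn l A) (k : ℕ) :
    #(A.filter fun a => below A κ l a < k) ≤ k * #W := by
  classical
  have : #(A.filter fun a => below A κ l a < k) ≤ #(range k ×ˢ W) := by
    apply card_le_card_of_injOn (fun a => (below A κ l a, κ a))
    · intro a ha
      simp only [coe_filter, Set.mem_setOf_eq] at ha
      simp [ha.2, hW a ha.1]
    · intro a ha b hb hab
      simp only [coe_filter, Set.mem_setOf_eq, Prod.mk.injEq] at ha hb hab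
      apply hl ha.1 hb.1
      rcases lt_trichotomy (l a) (l b) with h | h | h
      · have := below_lt (κ := κ) ha.1 hab.2 h; omega
      · exact h
      · have := below_lt (κ := κ) hb.1 hab.2.symm h; omega
  simpa using this

lemma exists_below {A : Finset α} {κ : α → V} {l : α → β} {a : α}
    (h : 1 ≤ below A κ l a) : ∃ c ∈ A, κ c = κ a ∧ l c < l a := by
  obtain ⟨c, hc⟩ := card_pos.1 h
  exact ⟨c, by simpa using hc⟩

/-- The largest earlier member has one fewer earlier members. -/
lemma exists_prev {A : Finset α} {κ : α → V} {l : α → β} (hl : Set.InjOn l A) {a : α} {k : ℕ}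
    (h : k + 1 ≤ below A κ l a) :
    ∃ c ∈ A, κ c = κ a ∧ l c < l a ∧ k ≤ below A κ l c := by
  classical
  have hne : (A.filter fun c => κ c = κ a ∧ l c < l a).Nonempty :=
    card_pos.1 (by unfold below at h; omega)
  obtain ⟨c, hc, hmax⟩ := exists_max_image _ l hne
  simp only [mem_filter] at hc
  refine ⟨c, hc.1, hc.2.1, hc.2.2, ?_⟩
  have hsub : (A.filter fun d => κ d = κ a ∧ l d < l a) ⊆
      insert c (A.filter fun d => κ d = κ c ∧ l d < l c) := by
    intro d hd
    have hd' := hmax d hd
    simp only [mem_filter] at hd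
    rcases hd'.lt_or_eq with h1 | h1
    · exact mem_insert_of_mem (mem_filter.2 ⟨hd.1, hd.2.1.trans hc.2.1.symm, h1⟩)
    · rw [hl hd.1 hc.1 h1]; exact mem_insert_self _ _
  have := (card_le_card hsub).trans (card_insert_le _ _)
  unfold below at h ⊢
  omega

lemma exists_two_below {A : Finset α} {κ : α → V} {l : α → β} (hl : Set.InjOn l A) {a : α}
    (h : 2 ≤ below A κ l a) :
    ∃ c ∈ A, ∃ d ∈ A, κ c = κ a ∧ κ d = κ a ∧ l d < l c ∧ l c < l a := by
  obtain ⟨c, hc, h1, h2, h3⟩ := exists_prev hl (k := 1) h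
  obtain ⟨d, hd, h4, h5⟩ := exists_below h3
  exact ⟨c, hc, d, hd, h1, h4.trans h1, h5, h2⟩

/-- Two members with the same key and the same parity of position have a member between them. -/
lemma exists_between {A : Finset α} {κ : α → V} {l : α → β} (hl : Set.InjOn l A) {a b : α}
    (ha : a ∈ A) (hk : κ a = κ b) (h : l a < l b)
    (hp : below A κ l a % 2 = below A κ l b % 2) :
    ∃ c ∈ A, κ c = κ b ∧ l a < l c ∧ l c < l b := by
  have h1 := below_lt ha hk h
  obtain ⟨c, hc, h2, h3, h4⟩ := exists_prev hl (a := b) (κ := κ) (k := below A κ l a + 1)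
    (by omega)
  refine ⟨c, hc, h2, ?_, h3⟩
  by_contra hcon
  rcases (not_lt.1 hcon).lt_or_eq with h5 | h5
  · have := below_lt hc (h2.trans hk.symm) h5; omega
  · rw [hl hc ha h5] at h4; omega

/-- The label of the second member with a given key. -/
lemma exists_second {A : Finset α} {κ : α → V} {l : α → ℕ} (hl : Set.InjOn l A) :
    ∃ F : V → ℕ, ∀ a ∈ A, 2 ≤ below A κ l a →
      ∃ c ∈ A, ∃ d ∈ A, κ c = κ a ∧ κ d = κ a ∧ l d < l c ∧ l c = F (κ a) ∧ l c < l a := by
  classical
  have : ∀ v : V, ∃ x : ℕ, ∀ a ∈ A, κ a = v → 2 ≤ below A κ l a →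
      ∃ c ∈ A, ∃ d ∈ A, κ c = κ a ∧ κ d = κ a ∧ l d < l c ∧ l c = x ∧ l c < l a := by
    intro v
    by_cases hne : (A.filter fun c => κ c = v ∧ 1 ≤ below A κ l c).Nonempty
    · obtain ⟨c, hc, hmin⟩ := exists_min_image _ l hne
      simp only [mem_filter] at hc
      obtain ⟨d, hd, h1, h2⟩ := exists_below hc.2.2
      refine ⟨l c, fun a ha hv h2' => ?_⟩
      obtain ⟨e, he, h3, h4, h5⟩ := exists_prev hl (k := 1) h2'
      have := hmin e (mem_filter.2 ⟨he, h3.trans hv, h5⟩)
      exact ⟨c, hc.1, d, hd, hc.2.1.trans hv.symm, (h1.trans hc.2.1).trans hv.symm, h2, rfl,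
        by omega⟩
    · refine ⟨0, fun a ha hv h2' => absurd ?_ hne⟩
      obtain ⟨e, he, h3, h4, h5⟩ := exists_prev hl (k := 1) h2'
      exact ⟨e, mem_filter.2 ⟨he, h3.trans hv, h5⟩⟩
  choose F hF using this
  exact ⟨F, fun a ha h => hF _ a ha rfl h⟩

/-- The label of the first member with a given key. -/
lemma exists_first (A : Finset α) (κ : α → V) (l : α → β) [Inhabited β] :
    ∃ F : V → β, ∀ a ∈ A, (∃ c ∈ A, κ c = κ a ∧ l c = F (κ a)) ∧ F (κ a) ≤ l a := by
  classical
  have : ∀ v : V, ∃ x : β, ∀ a ∈ A, κ a = v → (∃ c ∈ A, κ c = κ a ∧ l c = x) ∧ x ≤ l a := by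
    intro v
    by_cases hne : (A.filter fun c => κ c = v).Nonempty
    · obtain ⟨c, hc, hmin⟩ := exists_min_image _ l hne
      simp only [mem_filter] at hc
      exact ⟨l c, fun a ha hv => ⟨⟨c, hc.1, hc.2.trans hv.symm, rfl⟩,
        hmin a (mem_filter.2 ⟨ha, hv⟩)⟩⟩
    · exact ⟨default, fun a ha hv => absurd ⟨a, mem_filter.2 ⟨ha, hv⟩⟩ hne⟩
  choose F hF using this
  exact ⟨F, fun a ha => hF _ a ha rfl⟩

end

lemma log_close {x y : ℕ} (hy : 0 < y) (h : Nat.log 2 x = Nat.log 2 y) : x < 2 * y := by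
  have h1 := Nat.lt_pow_succ_log_self (b := 2) (by norm_num) x
  have h2 := Nat.pow_log_le_self 2 hy.ne'
  rw [h, pow_succ] at h1
  omega

lemma log_lt {x m : ℕ} (h : x ≤ m + 1) : Nat.log 2 x < Nat.log 2 (m + 1) + 1 :=
  Nat.lt_succ_of_le (Nat.log_mono_right h)

/-- A quarter of any set of arcs goes across some cut. -/
lemma exists_cut {V : Type*} [Fintype V] [DecidableEq V] (A : Finset (V × V))
    (hA : ∀ a ∈ A, a.1 ≠ a.2) :
    ∃ X : V → Bool, #A ≤ 4 * #(A.filter fun a => X a.1 = true ∧ X a.2 = false) := by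
  classical
  have key : ∀ a ∈ A, #(univ : Finset (V → Bool)) ≤
      4 * #(univ.filter fun X : V → Bool => X a.1 = true ∧ X a.2 = false) := by
    intro a ha
    have h := hA a ha
    have : #(univ : Finset (V → Bool)) ≤ #((univ : Finset (Bool × Bool)) ×ˢ
        (univ.filter fun X : V → Bool => X a.1 = true ∧ X a.2 = false)) := by
      apply card_le_card_of_injOn (fun X : V → Bool =>
        ((X a.1, X a.2), Function.update (Function.update X a.1 true) a.2 false))
      · intro X _
        simp [Function.update_of_ne h]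
      · intro X _ Y _ hXY
        simp only [Prod.mk.injEq] at hXY
        funext v
        by_cases h1 : v = a.1
        · rw [h1]; exact hXY.1.1
        by_cases h2 : v = a.2
        · rw [h2]; exact hXY.1.2
        have := congrFun hXY.2 v
        simpa [Function.update_of_ne h1, Function.update_of_ne h2] using this
    simpa using this
  by_contra hcon
  push Not at hcon
  have h1 : ∑ X : V → Bool, 4 * #(A.filter fun a => X a.1 = true ∧ X a.2 = false) <
      ∑ _X : V → Bool, #A :=
    sum_lt_sum_of_nonempty univ_nonempty fun X _ => hcon X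
  have h2 : ∑ X : V → Bool, #(A.filter fun a => X a.1 = true ∧ X a.2 = false) =
      ∑ a ∈ A, #(univ.filter fun X : V → Bool => X a.1 = true ∧ X a.2 = false) := by
    simp only [card_filter]
    exact sum_comm
  rw [← mul_sum, h2, mul_sum] at h1
  have h3 := sum_le_sum key
  simp only [sum_const, smul_eq_mul] at h1 h3
  rw [mul_comm] at h1
  omega

end Pool.Agent.MP_e6c106_co.H32
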