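import Pool.Agent.MP_e6c106_co.H32.Basic

/-! Bipartite arc sets with a staircase structure that avoid one of the paths. -/

namespace Pool.Agent.MP_e6c106_co.H32

open Finset

variable {V : Type*} [DecidableEq V]

/-- `a` has two earlier and two later members of `C` with the same first end. -/
def Mid (C : Finset (V × V)) (l : V × V → ℕ) (a : V × V) : Prop :=
  (∃ c ∈ C, ∃ d ∈ C, c.1 = a.1 ∧ d.1 = a.1 ∧ l d < l c ∧ l c < l a) ∧
  (∃ c ∈ C, ∃ d ∈ C, c.1 = a.1 ∧ d.1 = a.1 ∧ l a < l c ∧ l c < l d)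

lemma card_drop {A : Finset (V × V)} {β : Type*} [LinearOrder β] {κ : V × V → V} {l : V × V → β}
    (W : Finset V) (hW : ∀ a ∈ A, κ a ∈ W) (hl : Set.InjOn l A) (k : ℕ) :
    #A ≤ k * #W + #(A.filter fun a => k ≤ below A κ l a) := by
  have h1 := card_few W hW hl k
  have h2 := card_filter_add_card_filter_not (s := A) (fun a => below A κ l a < k)
  simp only [not_lt] at h2
  omega

lemma card_le_six {C : Finset (V × V)} {l : V × V → ℕ} (W : Finset V)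
    (hW : ∀ a ∈ C, a.1 ∈ W ∧ a.2 ∈ W) (hl : Set.InjOn l C)
    (h : ∀ e ∈ C, ∀ f ∈ C, ∀ g ∈ C, f.2 = e.2 → g.2 = e.2 → l g < l f → l f < l e →
      Mid C l e → Mid C l f → Mid C l g → False) : #C ≤ 6 * #W := by
  classical
  have hl' : Set.InjOn (fun a => OrderDual.toDual (l a)) C := fun a ha b hb hab =>
    hl ha hb (by simpa using hab)
  set C' := C.filter fun a => 2 ≤ below C Prod.fst l a ∧
    2 ≤ below C Prod.fst (fun a => OrderDual.toDual (l a)) a with hC'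
  have hsub : C' ⊆ C := filter_subset _ _
  have hmid : ∀ a ∈ C', Mid C l a := by
    intro a ha
    rw [hC', mem_filter] at ha
    refine ⟨exists_two_below hl ha.2.1, ?_⟩
    obtain ⟨c, hc, d, hd, h1, h2, h3, h4⟩ := exists_two_below hl' ha.2.2
    exact ⟨c, hc, d, hd, h1, h2, by simpa using h4, by simpa using h3⟩
  have hlc : Set.InjOn l C' := hl.mono (by exact_mod_cast hsub)
  have h1 := card_few (κ := Prod.fst) W (fun a ha => (hW a ha).1) hl 2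
  have h2 := card_few (κ := Prod.fst) W (fun a ha => (hW a ha).1) hl' 2
  have h3 := card_few (κ := Prod.snd) W (fun a ha => (hW a (hsub ha)).2) hlc 2
  have h4 : C'.filter (fun a => below C' Prod.snd l a < 2) = C' := by
    apply filter_true_of_mem
    intro e he
    by_contra hcon
    obtain ⟨f, hf, g, hg, h5, h6, h7, h8⟩ := exists_two_below hlc (not_lt.1 hcon)
    exact h e (hsub he) f (hsub hf) g (hsub hg) h5 h6 h7 h8 (hmid e he) (hmid f hf) (hmid g hg)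
  rw [h4] at h3
  have h5 : C ⊆ (C.filter fun a => below C Prod.fst l a < 2) ∪
      (C.filter fun a => below C Prod.fst (fun a => OrderDual.toDual (l a)) a < 2) ∪ C' := by
    intro a ha
    simp only [hC', mem_union, mem_filter, ha, true_and]
    omega
  have h6 := (card_le_card h5).trans ((card_union_le _ _).trans
    (Nat.add_le_add_right (card_union_le _ _) _))
  omega

lemma card_classes₂ {α : Type*} {A : Finset α} (c₁ c₂ : α → ℕ) (Q B : ℕ) (h1 : ∀ a ∈ A, c₁ a < Q)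
    (h2 : ∀ a ∈ A, c₂ a < Q)
    (h : ∀ i j, #(A.filter fun a => c₁ a = i ∧ c₂ a = j) ≤ B) : #A ≤ Q * (Q * B) := by
  refine card_classes c₁ Q _ h1 fun i => card_classes c₂ Q _
    (fun a ha => h2 a (mem_filter.1 ha).1) fun j => ?_
  rw [filter_filter]
  exact h i j

/-- No path `y b₁ x b₂ z b₃` made of arcs `(y,b₁) (x,b₁) (x,b₂) (z,b₂) (z,b₃)` whose labels
satisfy `R`. -/
def BAv (A : Finset (V × V)) (l : V × V → ℕ) (R : ℕ → ℕ → ℕ → ℕ → ℕ → Prop) : Prop :=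
  ∀ a₁ ∈ A, ∀ a₂ ∈ A, ∀ a₃ ∈ A, ∀ a₄ ∈ A, ∀ a₅ ∈ A, a₁.2 = a₂.2 → a₂.1 = a₃.1 → a₃.2 = a₄.2 →
    a₄.1 = a₅.1 → a₁.1 ≠ a₄.1 → a₂.2 ≠ a₅.2 → ¬ R (l a₁) (l a₂) (l a₃) (l a₄) (l a₅)

omit [DecidableEq V] in
lemma BAv.mono {A B : Finset (V × V)} {l : V × V → ℕ} {R : ℕ → ℕ → ℕ → ℕ → ℕ → Prop}
    (h : BAv A l R) (hB : B ⊆ A) : BAv B l R :=
  fun a₁ h₁ a₂ h₂ a₃ h₃ a₄ h₄ a₅ h₅ => h a₁ (hB h₁) a₂ (hB h₂) a₃ (hB h₃) a₄ (hB h₄) a₅ (hB h₅)

lemma BAv.two {A : Finset (V × V)} {l : V × V → ℕ} {R : ℕ → ℕ → ℕ → ℕ → ℕ → Prop}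
    (h : BAv A l R) {a₁ a₁' a₂ a₃ a₄ a₅ a₅' : V × V} (h₁ : a₁ ∈ A) (h₁' : a₁' ∈ A) (h₂ : a₂ ∈ A)
    (h₃ : a₃ ∈ A) (h₄ : a₄ ∈ A) (h₅ : a₅ ∈ A) (h₅' : a₅' ∈ A) (e₁ : a₁.2 = a₂.2)
    (e₁' : a₁'.2 = a₂.2) (e₂ : a₂.1 = a₃.1) (e₃ : a₄.2 = a₃.2) (e₅ : a₅.1 = a₄.1)
    (e₅' : a₅'.1 = a₄.1) (n₁ : l a₁ ≠ l a₁') (n₅ : l a₅ ≠ l a₅')
    (hR : ∀ p t, (p = l a₁ ∨ p = l a₁') → (t = l a₅ ∨ t = l a₅') →
      R p (l a₂) (l a₃) (l a₄) t) : False := by
  have k₁ : a₁.1 ≠ a₄.1 ∨ a₁'.1 ≠ a₄.1 := by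
    by_contra hc
    push Not at hc
    exact n₁ (congrArg l (Prod.ext (hc.1.trans hc.2.symm) (e₁.trans e₁'.symm)))
  have k₅ : a₂.2 ≠ a₅.2 ∨ a₂.2 ≠ a₅'.2 := by
    by_contra hc
    push Not at hc
    exact n₅ (congrArg l (Prod.ext (e₅.trans e₅'.symm) (hc.1.symm.trans hc.2)))
  rcases k₁ with k₁ | k₁ <;> rcases k₅ with k₅ | k₅
  · exact h _ h₁ _ h₂ _ h₃ _ h₄ _ h₅ e₁ e₂ e₃.symm e₅.symm k₁ k₅ (hR _ _ (.inl rfl) (.inl rfl))
  · exact h _ h₁ _ h₂ _ h₃ _ h₄ _ h₅' e₁ e₂ e₃.symm e₅'.symm k₁ k₅ (hR _ _ (.inl rfl) (.inr rfl))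
  · exact h _ h₁' _ h₂ _ h₃ _ h₄ _ h₅ e₁' e₂ e₃.symm e₅.symm k₁ k₅ (hR _ _ (.inr rfl) (.inl rfl))
  · exact h _ h₁' _ h₂ _ h₃ _ h₄ _ h₅' e₁' e₂ e₃.symm e₅'.symm k₁ k₅
      (hR _ _ (.inr rfl) (.inr rfl))

/-- Structure A: arcs start at time `τ`, earlier arcs at the second end come before `τ`. -/
def StrA (A : Finset (V × V)) (l : V × V → ℕ) (τ : V → ℕ) : Prop :=
  ∀ a ∈ A, τ a.1 ≤ l a ∧ ∀ b ∈ A, b.2 = a.2 → l b < l a → l b < τ a.1

/-- Structure B: arcs end at time `τ`, later arcs at the second end come after `τ`. -/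
def StrB (A : Finset (V × V)) (l : V × V → ℕ) (τ : V → ℕ) : Prop :=
  ∀ a ∈ A, l a ≤ τ a.1 ∧ ∀ b ∈ A, b.2 = a.2 → l a < l b → τ a.1 < l b

def R14523 (p q r s t : ℕ) : Prop := p < s ∧ s < t ∧ t < q ∧ q < r
def R14532 (p q r s t : ℕ) : Prop := p < t ∧ t < s ∧ s < q ∧ q < r
def R15423 (p q r s t : ℕ) : Prop := p < s ∧ s < t ∧ t < r ∧ r < q
def R35412 (p q r s t : ℕ) : Prop := s < t ∧ t < p ∧ p < r ∧ r < q

lemma bip_14532 {A : Finset (V × V)} {l : V × V → ℕ} {τ : V → ℕ} {m : ℕ} (W : Finset V)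
    (hW : ∀ a ∈ A, a.1 ∈ W ∧ a.2 ∈ W) (hl : Set.InjOn l A) (hm : ∀ a ∈ A, l a < m)
    (hS : StrA A l τ) (hav : BAv A l R14532) :
    #A ≤ 2 * #W + (Nat.log 2 (m + 1) + 1) * (6 * #W) := by
  classical
  obtain ⟨F, hF⟩ := exists_second (κ := Prod.snd) hl
  refine (card_drop (κ := Prod.snd) W (fun a ha => (hW a ha).2) hl 2).trans
    (Nat.add_le_add_left ?_ _)
  refine card_classes (fun a => Nat.log 2 (τ a.1 - F a.2)) _ _ (fun a ha => log_lt ?_) fun k => ?_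
  · have ha' := (mem_filter.1 ha).1
    have := (hS a ha').1
    have := hm a ha'
    omega
  refine card_le_six W (fun a ha => hW a (mem_filter.1 (mem_filter.1 ha).1).1)
    (hl.mono fun a ha => (mem_filter.1 (mem_filter.1 ha).1).1) ?_
  rintro e he f hf g - hfe - - hlt ⟨⟨e₁, he₁, -, -, hx, -, -, hlt₁⟩, -⟩
    ⟨⟨c, hc, d, hd, hcz, hdz, hdc, hcf⟩, -⟩ -
  simp only [mem_filter] at he hf he₁ hc hd
  obtain ⟨u, hu, u', hu', k1, k2, k3, k4, k5⟩ := hF e₁ he₁.1.1 he₁.1.2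
  obtain ⟨v, hv, -, -, k6, -, -, k7, k8⟩ := hF e he.1.1 he.1.2
  obtain ⟨w, hw, -, -, k9, -, -, k10, k11⟩ := hF f hf.1.1 hf.1.2
  have s1 := (hS e₁ he₁.1.1).2 u hu k1 k5
  have s2 := (hS e he.1.1).2 v hv k6 k8
  have s3 := (hS f hf.1.1).2 w hw k9 k11
  have s4 := (hS e he.1.1).2 f hf.1.1 hfe hlt
  have s5 := (hS e₁ he₁.1.1).1
  have s6 := (hS d hd.1.1).1
  have l1 := log_close (by omega) (he.2.trans he₁.2.symm)
  have l2 := log_close (by omega) (he.2.trans hf.2.symm)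
  have t1 := congrArg τ hx
  have t2 := congrArg F hfe
  have t3 := congrArg τ hdz
  refine hav.two hu hu' he₁.1.1 he.1.1 hf.1.1 hc.1.1 hd.1.1 k1 k2 hx hfe hcz hdz (by omega)
    (by omega) fun p t hp ht => ?_
  unfold R14532
  omega

lemma bip_15423 {A : Finset (V × V)} {l : V × V → ℕ} {τ : V → ℕ} {m : ℕ} (W : Finset V)
    (hW : ∀ a ∈ A, a.1 ∈ W ∧ a.2 ∈ W) (hl : Set.InjOn l A) (hm : ∀ a ∈ A, τ a.1 ≤ m)
    (hS : StrB A l τ) (hav : BAv A l R15423) :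
    #A ≤ 2 * #W + (Nat.log 2 (m + 1) + 1) * (6 * #W) := by
  classical
  obtain ⟨F, hF⟩ := exists_second (κ := Prod.snd) hl
  refine (card_drop (κ := Prod.snd) W (fun a ha => (hW a ha).2) hl 2).trans
    (Nat.add_le_add_left ?_ _)
  refine card_classes (fun a => Nat.log 2 (τ a.1 - F a.2)) _ _ (fun a ha => log_lt ?_) fun k => ?_
  · have := hm a (mem_filter.1 ha).1
    omega
  refine card_le_six W (fun a ha => hW a (mem_filter.1 (mem_filter.1 ha).1).1)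
    (hl.mono fun a ha => (mem_filter.1 (mem_filter.1 ha).1).1) ?_
  rintro e he f hf g hg hfe hge hgf hlt ⟨-, ⟨e₁, he₁, -, -, hx, -, hlt₁, -⟩⟩
    ⟨-, ⟨c, hc, d, hd, hcz, hdz, hfc, hcd⟩⟩ -
  simp only [mem_filter] at he hf hg he₁ hc hd
  obtain ⟨u, hu, u', hu', k1, k2, k3, k4, k5⟩ := hF e₁ he₁.1.1 he₁.1.2
  obtain ⟨v, -, -, -, -, -, -, k7, k8⟩ := hF g hg.1.1 hg.1.2
  have s1 := (hS e₁ he₁.1.1).1
  have s2 := (hS g hg.1.1).1
  have s3 := (hS g hg.1.1).2 f hf.1.1 (hfe.trans hge.symm) hgf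
  have s4 := (hS f hf.1.1).2 e he.1.1 hfe.symm hlt
  have s5 := (hS d hd.1.1).1
  have l1 := log_close (by omega) (he.2.trans he₁.2.symm)
  have l2 := log_close (by omega) (he.2.trans hg.2.symm)
  have t1 := congrArg τ hx
  have t2 := congrArg F hge
  have t3 := congrArg τ hdz
  refine hav.two hu hu' he₁.1.1 he.1.1 hf.1.1 hc.1.1 hd.1.1 k1 k2 hx hfe hcz hdz (by omega)
    (by omega) fun p t hp ht => ?_
  unfold R15423
  omega

lemma bip_14523A {A : Finset (V × V)} {l : V × V → ℕ} {τ : V → ℕ} {m : ℕ} (W : Finset V)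
    (hW : ∀ a ∈ A, a.1 ∈ W ∧ a.2 ∈ W) (hl : Set.InjOn l A) (hm : ∀ a ∈ A, l a < m)
    (hS : StrA A l τ) (hav : BAv A l R14523) :
    #A ≤ 2 * #W + (Nat.log 2 (m + 1) + 1) * ((Nat.log 2 (m + 1) + 1) * (6 * #W)) := by
  classical
  obtain ⟨F, hF⟩ := exists_second (κ := Prod.snd) hl
  refine (card_drop (κ := Prod.snd) W (fun a ha => (hW a ha).2) hl 2).trans
    (Nat.add_le_add_left ?_ _)
  refine card_classes₂ (fun a => Nat.log 2 (τ a.1 - F a.2)) (fun a => Nat.log 2 (l a - τ a.1 + 1))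
    _ _ (fun a ha => log_lt ?_) (fun a ha => log_lt ?_) fun k j => ?_
  · have ha' := (mem_filter.1 ha).1
    have := (hS a ha').1
    have := hm a ha'
    omega
  · have := hm a (mem_filter.1 ha).1
    omega
  refine card_le_six W (fun a ha => hW a (mem_filter.1 (mem_filter.1 ha).1).1)
    (hl.mono fun a ha => (mem_filter.1 (mem_filter.1 ha).1).1) ?_
  rintro e he f hf g - hfe - - hlt ⟨⟨e₁, he₁, -, -, hx, -, -, hlt₁⟩, -⟩
    ⟨-, ⟨c, hc, d, hd, hcz, hdz, hfc, hcd⟩⟩ -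
  simp only [mem_filter] at he hf he₁ hc hd
  obtain ⟨u, hu, u', hu', k1, k2, k3, k4, k5⟩ := hF e₁ he₁.1.1 he₁.1.2
  obtain ⟨v, hv, -, -, k6, -, -, k7, k8⟩ := hF e he.1.1 he.1.2
  obtain ⟨w, hw, -, -, k9, -, -, k10, k11⟩ := hF f hf.1.1 hf.1.2
  have s1 := (hS e₁ he₁.1.1).2 u hu k1 k5
  have s2 := (hS e he.1.1).2 v hv k6 k8
  have s3 := (hS f hf.1.1).2 w hw k9 k11
  have s4 := (hS e he.1.1).2 f hf.1.1 hfe hlt
  have s5 := (hS e₁ he₁.1.1).1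
  have s6 := (hS d hd.1.1).1
  have s7 := (hS f hf.1.1).1
  have l1 := log_close (by omega) (he.2.1.trans he₁.2.1.symm)
  have l2 := log_close (by omega) (he.2.1.trans hf.2.1.symm)
  have l3 := log_close (by omega) (hd.2.2.trans he₁.2.2.symm)
  have l4 := log_close (by omega) (hd.2.2.trans hf.2.2.symm)
  have t1 := congrArg τ hx
  have t2 := congrArg F hfe
  have t3 := congrArg τ hdz
  refine hav.two hu hu' he₁.1.1 he.1.1 hf.1.1 hc.1.1 hd.1.1 k1 k2 hx hfe hcz hdz (by omega)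
    (by omega) fun p t hp ht => ?_
  unfold R14523
  omega

lemma bip_14523B {A : Finset (V × V)} {l : V × V → ℕ} {τ : V → ℕ} {m : ℕ} (W : Finset V)
    (hW : ∀ a ∈ A, a.1 ∈ W ∧ a.2 ∈ W) (hl : Set.InjOn l A) (hm : ∀ a ∈ A, τ a.1 ≤ m)
    (hS : StrB A l τ) (hav : BAv A l R14523) :
    #A ≤ 2 * #W + (Nat.log 2 (m + 1) + 1) * ((Nat.log 2 (m + 1) + 1) * (6 * #W)) := by
  classical
  obtain ⟨F, hF⟩ := exists_second (κ := Prod.snd) hl
  refine (card_drop (κ := Prod.snd) W (fun a ha => (hW a ha).2) hl 2).trans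
    (Nat.add_le_add_left ?_ _)
  refine card_classes₂ (fun a => Nat.log 2 (l a - F a.2)) (fun a => Nat.log 2 (τ a.1 - l a + 1))
    _ _ (fun a ha => log_lt ?_) (fun a ha => log_lt ?_) fun k j => ?_
  · have ha' := (mem_filter.1 ha).1
    have := (hS a ha').1
    have := hm a ha'
    omega
  · have := hm a (mem_filter.1 ha).1
    omega
  refine card_le_six W (fun a ha => hW a (mem_filter.1 (mem_filter.1 ha).1).1)
    (hl.mono fun a ha => (mem_filter.1 (mem_filter.1 ha).1).1) ?_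
  rintro e he f hf g hg hfe hge hgf hlt ⟨⟨e₁, he₁, -, -, hx, -, -, hlt₁⟩, -⟩ -
    ⟨-, ⟨c, hc, d, hd, hcz, hdz, hgc, hcd⟩⟩
  simp only [mem_filter] at he hf hg he₁ hc hd
  obtain ⟨u, hu, u', hu', k1, k2, k3, k4, k5⟩ := hF e₁ he₁.1.1 he₁.1.2
  obtain ⟨v, -, -, -, -, -, -, k7, k8⟩ := hF g hg.1.1 hg.1.2
  have s1 := (hS e₁ he₁.1.1).1
  have s2 := (hS f hf.1.1).1
  have s3 := (hS g hg.1.1).2 f hf.1.1 (hfe.trans hge.symm) hgf
  have s4 := (hS f hf.1.1).2 e he.1.1 hfe.symm hlt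
  have s5 := (hS d hd.1.1).1
  have s6 := (hS e he.1.1).1
  have l1 := log_close (by omega) (he.2.1.trans he₁.2.1.symm)
  have l2 := log_close (by omega) (he.2.1.trans hg.2.1.symm)
  have l3 := log_close (by omega) (he₁.2.2.trans he.2.2.symm)
  have l4 := log_close (by omega) (he₁.2.2.trans hf.2.2.symm)
  have t1 := congrArg τ hx
  have t2 := congrArg F hge
  have t3 := congrArg τ hdz
  refine hav.two hu hu' he₁.1.1 he.1.1 hg.1.1 hc.1.1 hd.1.1 k1 k2 hx hge hcz hdz (by omega)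
    (by omega) fun p t hp ht => ?_
  unfold R14523
  omega

lemma bip_35412 {A : Finset (V × V)} {l : V × V → ℕ} {τ : V → ℕ} {m : ℕ} (W : Finset V)
    (hW : ∀ a ∈ A, a.1 ∈ W ∧ a.2 ∈ W) (hl : Set.InjOn l A) (hm : ∀ a ∈ A, l a < m)
    (hS : StrA A l τ) (hav : BAv A l R35412) :
    #A ≤ (Nat.log 2 (m + 1) + 1) *
      (2 * #W + (1 * #W + (Nat.log 2 (m + 1) + 1) * (6 * #W))) := by
  classical
  refine card_classes (fun a => Nat.log 2 (l a - τ a.1 + 1)) _ _ (fun a ha => log_lt ?_)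
    fun j => ?_
  · have := hm a ha
    omega
  set C := A.filter fun a => Nat.log 2 (l a - τ a.1 + 1) = j with hC
  have hCA : ∀ a ∈ C, a ∈ A ∧ Nat.log 2 (l a - τ a.1 + 1) = j := fun a ha => mem_filter.1 ha
  have hl' : Set.InjOn (fun a => OrderDual.toDual (l a)) C := fun a ha b hb hab =>
    hl (hCA a ha).1 (hCA b hb).1 (by simpa using hab)
  refine (card_drop (κ := Prod.fst) W (fun a ha => (hW a (hCA a ha).1).1) hl' 2).trans
    (Nat.add_le_add_left ?_ _)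
  set C₁ := C.filter fun a => 2 ≤ below C Prod.fst (fun a => OrderDual.toDual (l a)) a with hC₁
  have hC₁C : ∀ a ∈ C₁, a ∈ C ∧ ∃ c ∈ C, ∃ d ∈ C, c.1 = a.1 ∧ d.1 = a.1 ∧ l a < l c ∧
      l c < l d := by
    intro a ha
    rw [hC₁, mem_filter] at ha
    obtain ⟨c, hc, d, hd, h1, h2, h3, h4⟩ := exists_two_below hl' ha.2
    exact ⟨ha.1, c, hc, d, hd, h1, h2, by simpa using h4, by simpa using h3⟩
  have hA₁ : ∀ a ∈ C₁, a ∈ A := fun a ha => (hCA a (hC₁C a ha).1).1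
  obtain ⟨F, hF⟩ := exists_first C₁ Prod.snd l
  refine (card_drop (κ := Prod.snd) W (fun a ha => (hW a (hA₁ a ha)).2)
    (hl.mono fun a ha => hA₁ a ha) 1).trans (Nat.add_le_add_left ?_ _)
  set C₂ := C₁.filter fun a => 1 ≤ below C₁ Prod.snd l a with hC₂
  have hC₂C : ∀ a ∈ C₂, a ∈ C₁ ∧ F a.2 < τ a.1 := by
    intro a ha
    rw [hC₂, mem_filter] at ha
    obtain ⟨c, hc, h1, h2⟩ := exists_below ha.2
    have h3 := (hF c hc).2
    have h4 := (hS a (hA₁ a ha.1)).2 c (hA₁ c hc) h1 h2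
    have h5 := congrArg F h1
    exact ⟨ha.1, by omega⟩
  refine card_classes (fun a => Nat.log 2 (τ a.1 - F a.2)) _ _ (fun a ha => log_lt ?_) fun k => ?_
  · have ha' := hA₁ a (hC₂C a ha).1
    have := (hS a ha').1
    have := hm a ha'
    omega
  refine card_le_six W (fun a ha => hW a (hA₁ a (hC₂C a (mem_filter.1 ha).1).1))
    (hl.mono fun a ha => hA₁ a (hC₂C a (mem_filter.1 ha).1).1) ?_
  rintro e he f hf g hg hfe hge hgf hlt ⟨⟨e₂, he₂, -, -, hx, -, -, hlt₂⟩, -⟩ - -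
  rw [mem_filter] at he hf hg he₂
  obtain ⟨he', q1⟩ := hC₂C e he.1
  obtain ⟨hf', q2⟩ := hC₂C f hf.1
  obtain ⟨hg', q3⟩ := hC₂C g hg.1
  obtain ⟨he₂', q4⟩ := hC₂C e₂ he₂.1
  obtain ⟨⟨w, hw, hw1, hw2⟩, -⟩ := hF e₂ he₂'
  obtain ⟨hwC, c, hc, d, hd, hcz, hdz, hwc, hcd⟩ := hC₁C w hw
  have s1 := (hS e (hA₁ e he')).2 f (hA₁ f hf') hfe hlt
  have s2 := (hS e₂ (hA₁ e₂ he₂')).1
  have s3 := (hS f (hA₁ f hf')).1
  have s4 := (hS g (hA₁ g hg')).1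
  have s5 := (hS w (hA₁ w hw)).1
  have s6 := (hS d (hCA d hd).1).1
  have l1 := log_close (by omega) (he.2.trans he₂.2.symm)
  have l2 := log_close (by omega) (he.2.trans hf.2.symm)
  have l3 := log_close (by omega) (he.2.trans hg.2.symm)
  have l4 := log_close (by omega) ((hCA d hd).2.trans (hCA w hwC).2.symm)
  have l5 := log_close (by omega) ((hCA d hd).2.trans (hCA f (hC₁C f hf').1).2.symm)
  have l6 := log_close (by omega) ((hCA d hd).2.trans (hCA g (hC₁C g hg').1).2.symm)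
  have t1 := congrArg τ hx
  have t2 := congrArg F hfe
  have t3 := congrArg F hge
  have t4 := congrArg τ hdz
  refine hav.two (hA₁ f hf') (hA₁ g hg') (hA₁ e he') (hA₁ e₂ he₂') (hA₁ w hw) (hCA c hc).1
    (hCA d hd).1 hfe hge hx.symm hw1 hcz hdz (by omega) (by omega) fun p t hp ht => ?_
  unfold R35412
  omega

end Pool.Agent.MP_e6c106_co.H32
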