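import Pool.Agent.MP_e6c106_co.H32.Bip

/-! Bipartite arc sets avoiding a path and its tail; the halving recursion. -/

namespace Pool.Agent.MP_e6c106_co.H32

open Finset

variable {V : Type*} [DecidableEq V]

/-- No path made of arcs `(b₁,x) (b₂,x) (b₂,z) (b₃,z)` whose labels satisfy `R`. -/
def TAv (A : Finset (V × V)) (l : V × V → ℕ) (R : ℕ → ℕ → ℕ → ℕ → Prop) : Prop :=
  ∀ a₂ ∈ A, ∀ a₃ ∈ A, ∀ a₄ ∈ A, ∀ a₅ ∈ A, a₂.2 = a₃.2 → a₃.1 = a₄.1 → a₄.2 = a₅.2 →
    a₂.1 ≠ a₅.1 → ¬ R (l a₂) (l a₃) (l a₄) (l a₅)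

def T14523 (q r s t : ℕ) : Prop := s < t ∧ t < q ∧ q < r
def T14532 (q r s t : ℕ) : Prop := t < s ∧ s < q ∧ q < r
def T15423 (q r s t : ℕ) : Prop := s < t ∧ t < r ∧ r < q

omit [DecidableEq V] in
lemma pick {l : V × V → ℕ} {u u' : V × V} (h : u.2 = u'.2) (hne : l u ≠ l u') (z : V) :
    u.1 ≠ z ∨ u'.1 ≠ z := by
  by_contra hc
  push Not at hc
  exact hne (congrArg l (Prod.ext (hc.1.trans hc.2.symm) h))

lemma final_le {N Q x : ℕ} (hQ : 1 ≤ Q) (h : x ≤ 8 * N + 6 * (Q * N) + 24 * (Q * (Q * N))) :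
    x ≤ 38 * Q ^ 2 * N := by
  have h1 : N ≤ Q * N := Nat.le_mul_of_pos_left _ hQ
  have h2 : Q * N ≤ Q * (Q * N) := Nat.le_mul_of_pos_left _ hQ
  have h3 : 38 * Q ^ 2 * N = 38 * (Q * (Q * N)) := by ring
  omega

lemma cross_14532 {A : Finset (V × V)} {l : V × V → ℕ} {m : ℕ} (W : Finset V)
    (hW : ∀ a ∈ A, a.1 ∈ W ∧ a.2 ∈ W) (hl : Set.InjOn l A) (hm : ∀ a ∈ A, l a < m)
    (hT : TAv A l T14532) (hav : BAv A l R14532) :
    #A ≤ 38 * (Nat.log 2 (m + 1) + 1) ^ 2 * #W := by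
  classical
  have h0 := card_drop (κ := Prod.snd) W (fun a ha => (hW a ha).2) hl 2
  set A₁ := A.filter fun a => 2 ≤ below A Prod.snd l a with hA₁
  have hsub : A₁ ⊆ A := filter_subset _ _
  obtain ⟨τ, hτ⟩ := exists_first A₁ Prod.fst l
  have hS : StrA A₁ l τ := by
    refine fun a ha => ⟨(hτ a ha).2, fun b hb hba hlt => ?_⟩
    obtain ⟨c, hc, hca, hcτ⟩ := (hτ a ha).1
    by_contra hcon
    have hne : l c ≠ l b := fun h => by
      have h1 := hl (hsub hc) (hsub hb) h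
      have h2 : b = a := Prod.ext (h1 ▸ hca) hba
      rw [h2] at hlt
      omega
    obtain ⟨u, hu, u', hu', k1, k2, k3, k4⟩ := exists_two_below hl (mem_filter.1 hc).2
    rcases pick (l := l) (k1.trans k2.symm) (by omega) b.1 with h | h
    · exact hT b (hsub hb) a (hsub ha) c (hsub hc) u hu hba hca.symm k1.symm h.symm
        (by unfold T14532; omega)
    · exact hT b (hsub hb) a (hsub ha) c (hsub hc) u' hu' hba hca.symm k2.symm h.symm
        (by unfold T14532; omega)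
  have h1 := bip_14532 W (fun a ha => hW a (hsub ha)) (hl.mono fun a ha => hsub ha)
    (fun a ha => hm a (hsub ha)) hS (hav.mono hsub)
  refine final_le (by omega) ?_
  have : (Nat.log 2 (m + 1) + 1) * (6 * #W) = 6 * ((Nat.log 2 (m + 1) + 1) * #W) := by ring
  omega

lemma cross_15423 {A : Finset (V × V)} {l : V × V → ℕ} {m : ℕ} (W : Finset V)
    (hW : ∀ a ∈ A, a.1 ∈ W ∧ a.2 ∈ W) (hl : Set.InjOn l A) (hm : ∀ a ∈ A, l a < m)
    (hT : TAv A l T15423) (hav : BAv A l R15423) :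
    #A ≤ 38 * (Nat.log 2 (m + 1) + 1) ^ 2 * #W := by
  classical
  have hl' : Set.InjOn (fun a => OrderDual.toDual (l a)) A := fun a ha b hb hab =>
    hl ha hb (by simpa using hab)
  have h0 := card_drop (κ := Prod.snd) W (fun a ha => (hW a ha).2) hl' 2
  set A₁ := A.filter fun a => 2 ≤ below A Prod.snd (fun a => OrderDual.toDual (l a)) a with hA₁
  have hsub : A₁ ⊆ A := filter_subset _ _
  set τ : V → ℕ := fun s => (A₁.filter fun c => c.1 = s).sup l with hτ
  have hS : StrB A₁ l τ := by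
    refine fun a ha => ⟨le_sup (f := l) (mem_filter.2 ⟨ha, rfl⟩), fun b hb hba hlt => ?_⟩
    refine (Finset.sup_lt_iff (by rw [bot_eq_zero]; omega)).2 fun c hc => ?_
    obtain ⟨hc, hca⟩ := mem_filter.1 hc
    by_contra hcon
    have hne : l c ≠ l b := fun h => by
      have h1 := hl (hsub hc) (hsub hb) h
      have h2 : b = a := Prod.ext (h1 ▸ hca) hba
      rw [h2] at hlt
      omega
    obtain ⟨u, hu, u', hu', k1, k2, k3, k4⟩ := exists_two_below hl' (mem_filter.1 hc).2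
    have k3' : l u < l u' := by simpa using k3
    have k4' : l c < l u := by simpa using k4
    rcases pick (l := l) (k1.trans k2.symm) (by omega) b.1 with h | h
    · exact hT u hu c (hsub hc) a (hsub ha) b (hsub hb) k1 hca hba.symm h
        (by unfold T15423; omega)
    · exact hT u' hu' c (hsub hc) a (hsub ha) b (hsub hb) k2 hca hba.symm h
        (by unfold T15423; omega)
  have h1 := bip_15423 (m := m) W (fun a ha => hW a (hsub ha)) (hl.mono fun a ha => hsub ha)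
    (fun a _ => Finset.sup_le fun c hc => (hm c (hsub (mem_filter.1 hc).1)).le) hS (hav.mono hsub)
  refine final_le (by omega) ?_
  have : (Nat.log 2 (m + 1) + 1) * (6 * #W) = 6 * ((Nat.log 2 (m + 1) + 1) * #W) := by ring
  omega

lemma cross_14523 {A : Finset (V × V)} {l : V × V → ℕ} {m : ℕ} (W : Finset V)
    (hW : ∀ a ∈ A, a.1 ∈ W ∧ a.2 ∈ W) (hl : Set.InjOn l A) (hm : ∀ a ∈ A, l a < m)
    (hT : TAv A l T14523) (hav : BAv A l R14523) :
    #A ≤ 38 * (Nat.log 2 (m + 1) + 1) ^ 2 * #W := by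
  classical
  refine final_le (by omega) ?_
  set Q := Nat.log 2 (m + 1) + 1 with hQ
  suffices h : #A ≤ 2 * (2 * (2 * #W + Q * (Q * (6 * #W)))) by
    have : Q * (Q * (6 * #W)) = 6 * (Q * (Q * #W)) := by ring
    omega
  refine card_classes (fun a => below A Prod.snd l a % 2) _ _ (fun a _ => by omega) fun k => ?_
  set A₁ := A.filter fun a => below A Prod.snd l a % 2 = k with hA₁
  have hsub : A₁ ⊆ A := filter_subset _ _
  set τ : V → ℕ := fun s => (A₁.filter fun c => ∃ a ∈ A₁, a.1 = s ∧ c.2 = a.2 ∧ l c < l a).sup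
    fun c => l c + 1 with hτ
  have h1 : ∀ a ∈ A₁, ∀ b ∈ A₁, b.2 = a.2 → l b < l a → l b < τ a.1 := fun a ha b hb hba hlt =>
    le_sup (f := fun c => l c + 1) (mem_filter.2 ⟨hb, a, ha, rfl, hba, hlt⟩)
  have h2 : ∀ a ∈ A₁, ∀ b ∈ A₁, b.2 = a.2 → l a < l b → τ a.1 ≤ l b := by
    refine fun a ha b hb hba hlt => Finset.sup_le fun c hc => ?_
    obtain ⟨hc, a', ha', k1, k2, k3⟩ := mem_filter.1 hc
    by_contra hcon
    have hne : l c ≠ l b := fun h => by
      have h1 := hl (hsub hc) (hsub hb) h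
      have h2 : a' = a := Prod.ext k1 (k2.symm.trans (h1 ▸ hba))
      rw [h2] at k3
      omega
    obtain ⟨u, hu, k4, k5, k6⟩ := exists_between (κ := Prod.snd) hl (hsub hc) k2 k3
      ((mem_filter.1 hc).2.trans (mem_filter.1 ha').2.symm)
    rcases pick (l := l) (k2.trans k4.symm) (by omega) b.1 with h | h
    · exact hT c (hsub hc) a' (hsub ha') a (hsub ha) b (hsub hb) k2 k1 hba.symm h
        (by unfold T14523; omega)
    · exact hT u hu a' (hsub ha') a (hsub ha) b (hsub hb) k4 k1 hba.symm h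
        (by unfold T14523; omega)
  have h3 : ∀ s, τ s ≤ m := fun s => Finset.sup_le fun c hc => hm c (hsub (mem_filter.1 hc).1)
  have hs1 : A₁.filter (fun a => τ a.1 ≤ l a) ⊆ A := (filter_subset _ _).trans hsub
  have hs2 : A₁.filter (fun a => ¬ τ a.1 ≤ l a) ⊆ A := (filter_subset _ _).trans hsub
  have b1 := bip_14523A (τ := τ) W (fun a ha => hW a (hs1 ha)) (hl.mono fun a ha => hs1 ha)
    (fun a ha => hm a (hs1 ha)) (fun a ha => ⟨(mem_filter.1 ha).2, fun b hb =>
      h1 a (mem_filter.1 ha).1 b (mem_filter.1 hb).1⟩) (hav.mono hs1)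
  have b2 := bip_14523B (τ := fun s => τ s - 1) (m := m) W (fun a ha => hW a (hs2 ha))
    (hl.mono fun a ha => hs2 ha) (fun a _ => (Nat.sub_le _ _).trans (h3 _))
    (fun a ha => ⟨by have := (mem_filter.1 ha).2; beta_reduce; omega, fun b hb hba hlt => by
      have := h2 a (mem_filter.1 ha).1 b (mem_filter.1 hb).1 hba hlt
      beta_reduce
      omega⟩) (hav.mono hs2)
  have b3 := card_filter_add_card_filter_not (s := A₁) (fun a => τ a.1 ≤ l a)
  rw [← hQ] at b1 b2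
  omega

lemma cross_35412 {A : Finset (V × V)} {l : V × V → ℕ} {m : ℕ} (W : Finset V)
    (hW : ∀ a ∈ A, a.1 ∈ W ∧ a.2 ∈ W) (hl : Set.InjOn l A) (hm : ∀ a ∈ A, l a < m)
    (hT : ∀ c ∈ A, ∀ a ∈ A, ∀ b ∈ A, c.1 = a.1 → b.2 = a.2 → l c < l b → ¬ l b < l a)
    (hav : BAv A l R35412) :
    #A ≤ 38 * (Nat.log 2 (m + 1) + 1) ^ 2 * #W := by
  classical
  obtain ⟨τ, hτ⟩ := exists_first A Prod.fst l
  have hS : StrA A l τ := by
    refine fun a ha => ⟨(hτ a ha).2, fun b hb hba hlt => ?_⟩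
    obtain ⟨c, hc, hca, hcτ⟩ := (hτ a ha).1
    by_contra hcon
    have hne : l c ≠ l b := fun h => by
      have h1 := hl hc hb h
      have h2 : b = a := Prod.ext (h1 ▸ hca) hba
      rw [h2] at hlt
      omega
    exact hT c hc a ha b hb hca hba (by omega) hlt
  have h1 := bip_35412 W hW hl hm hS hav
  refine final_le (by omega) ?_
  set Q := Nat.log 2 (m + 1) + 1
  have : Q * (2 * #W + (1 * #W + Q * (6 * #W))) = 3 * (Q * #W) + 6 * (Q * (Q * #W)) := by ring
  omega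

lemma exists_split (θ : V → ℕ) (W : Finset V) (k : ℕ) (hk : k ≤ #W) :
    ∃ U ⊆ W, #U = k ∧ ∀ s ∈ U, ∀ t ∈ W \ U, θ s ≤ θ t := by
  induction k with
  | zero => exact ⟨∅, empty_subset _, rfl, by simp⟩
  | succ k ih =>
    obtain ⟨U, hU, hc, h⟩ := ih (by omega)
    have hne : (W \ U).Nonempty := by
      rw [← card_pos, card_sdiff_of_subset hU]; omega
    obtain ⟨v, hv, hmin⟩ := exists_min_image _ θ hne
    rw [mem_sdiff] at hv
    refine ⟨insert v U, insert_subset hv.1 hU, by rw [card_insert_of_notMem hv.2, hc], ?_⟩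
    intro s hs t ht
    have ht' : t ∈ W \ U := by
      simp only [mem_sdiff, mem_insert, not_or] at ht ⊢
      exact ⟨ht.1, ht.2.2⟩
    rcases mem_insert.1 hs with rfl | hs
    · exact hmin t ht'
    · exact h s hs t ht'

/-- Halving: a bound for arcs crossing ordered splits gives a bound for all arcs. -/
lemma halve {D : Finset (V × V)} (hs : ∀ a ∈ D, a.swap ∈ D) (hi : ∀ a ∈ D, a.1 ≠ a.2)
    (θ : V → ℕ) (K : ℕ)
    (h : ∀ U T : Finset V, Disjoint U T → (∀ s ∈ U, ∀ t ∈ T, θ s ≤ θ t) →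
      #(D.filter fun a => a.1 ∈ U ∧ a.2 ∈ T) ≤ K * #(U ∪ T)) (d : ℕ) :
    ∀ W : Finset V, #W ≤ 2 ^ d → #(D.filter fun a => a.1 ∈ W ∧ a.2 ∈ W) ≤ 2 * K * d * #W := by
  induction d with
  | zero =>
    intro W hW
    have : D.filter (fun a => a.1 ∈ W ∧ a.2 ∈ W) = ∅ := by
      refine filter_false_of_mem fun a ha hc => hi a ha ?_
      exact card_le_one.1 (by simpa using hW) _ hc.1 _ hc.2
    simp [this]
  | succ d ih =>
    intro W hW
    obtain ⟨U, hU, hc, hθ⟩ := exists_split θ W (#W / 2) (by omega)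
    have hT : #(W \ U) = #W - #U := card_sdiff_of_subset hU
    rw [pow_succ] at hW
    have h1 := ih U (by omega)
    have h2 := ih (W \ U) (by omega)
    have h3 := h U (W \ U) disjoint_sdiff hθ
    rw [union_sdiff_of_subset hU] at h3
    have h4 : #(D.filter fun a => a.1 ∈ W \ U ∧ a.2 ∈ U) ≤
        #(D.filter fun a => a.1 ∈ U ∧ a.2 ∈ W \ U) := by
      refine card_le_card_of_injOn Prod.swap (fun a ha => ?_) Prod.swap_injective.injOn
      simp only [coe_filter, Set.mem_ofPred_eq] at ha ⊢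
      exact ⟨hs a ha.1, ha.2.2, ha.2.1⟩
    have h5 : D.filter (fun a => a.1 ∈ W ∧ a.2 ∈ W) ⊆
        D.filter (fun a => a.1 ∈ U ∧ a.2 ∈ U) ∪ D.filter (fun a => a.1 ∈ W \ U ∧ a.2 ∈ W \ U) ∪
        D.filter (fun a => a.1 ∈ U ∧ a.2 ∈ W \ U) ∪ D.filter (fun a => a.1 ∈ W \ U ∧ a.2 ∈ U) := by
      intro a ha
      simp only [mem_filter, mem_union, mem_sdiff] at ha ⊢
      tauto
    have h6 := (card_le_card h5).trans ((card_union_le _ _).trans (Nat.add_le_add_right
      ((card_union_le _ _).trans (Nat.add_le_add_right (card_union_le _ _) _)) _))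
    have h7 : 2 * K * (d + 1) * #W = 2 * K * d * #U + 2 * K * d * #(W \ U) + 2 * (K * #W) := by
      have : #W = #U + #(W \ U) := by omega
      rw [this]; ring
    omega

end Pool.Agent.MP_e6c106_co.H32
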