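import Pool.Agent.MP_e6c106_co.H32.Cross

/-! Threshold halving and the bounds for labelled graphs. -/

namespace Pool.Agent.MP_e6c106_co.H32

open Finset

variable {V : Type*} [DecidableEq V]

/-- A symmetric loopless arc set whose labels tell edges apart and lie below `m`. -/
structure Good (D : Finset (V × V)) (l : V × V → ℕ) (m : ℕ) : Prop where
  symm : ∀ a ∈ D, a.swap ∈ D
  irr : ∀ a ∈ D, a.1 ≠ a.2
  lsymm : ∀ u v, l (u, v) = l (v, u)
  inj : ∀ a ∈ D, ∀ b ∈ D, l a = l b → a = b ∨ a = b.swap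
  lt : ∀ a ∈ D, l a < m

/-- No path `y b₁ x b₂ z b₃` whose labels satisfy `R`. -/
def Avoid (D : Finset (V × V)) (l : V × V → ℕ) (R : ℕ → ℕ → ℕ → ℕ → ℕ → Prop) : Prop :=
  ∀ y b₁ x b₂ z b₃ : V, [y, b₁, x, b₂, z, b₃].Nodup → (y, b₁) ∈ D → (b₁, x) ∈ D → (x, b₂) ∈ D →
    (b₂, z) ∈ D → (z, b₃) ∈ D →
    ¬ R (l (y, b₁)) (l (b₁, x)) (l (x, b₂)) (l (b₂, z)) (l (z, b₃))

variable {D : Finset (V × V)} {l : V × V → ℕ} {m : ℕ}

omit [DecidableEq V] in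
lemma Good.injOn (hG : Good D l m) {U T : Finset V} (hUT : Disjoint U T) {A : Finset (V × V)}
    (hA : ∀ a ∈ A, a ∈ D ∧ a.1 ∈ U ∧ a.2 ∈ T) : Set.InjOn l A := by
  intro a ha b hb hab
  rcases hG.inj a (hA a ha).1 b (hA b hb).1 hab with h | h
  · exact h
  · have h1 := (hA a ha).2.1
    rw [h] at h1
    exact absurd (hA b hb).2.2 (disjoint_left.1 hUT h1)

lemma halve_thr (hG : Good D l m) (P : ℕ → V → Prop)
    (mono : ∀ θ θ' v, θ ≤ θ' → P θ v → P θ' v) (K K' : ℕ)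
    (hi : ∀ θ (U T : Finset V), Disjoint U T → (∀ s ∈ U, P θ s) →
      #(D.filter fun a => a.1 ∈ U ∧ a.2 ∈ T ∧ θ ≤ l a) ≤ K * #(U ∪ T))
    (lo : ∀ θ (U T : Finset V), Disjoint U T → (∀ t ∈ T, ¬ P θ t) →
      #(D.filter fun a => a.1 ∈ U ∧ a.2 ∈ T ∧ l a < θ) ≤ K' * #(U ∪ T))
    (d : ℕ) (W : Finset V) (hW : #W ≤ 2 ^ d) :
    #(D.filter fun a => a.1 ∈ W ∧ a.2 ∈ W) ≤ 2 * (K + K' + 1) * d * #W := by
  classical
  have hex : ∀ v, ∃ θ, P θ v ∨ m ≤ θ := fun v => ⟨m, .inr le_rfl⟩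
  refine halve hG.symm hG.irr (fun v => Nat.find (hex v)) _ (fun U T hUT hθ => ?_) d W hW
  rcases U.eq_empty_or_nonempty with rfl | hU
  · simp
  obtain ⟨s₀, hs₀, hmax⟩ := exists_max_image U (fun v => Nat.find (hex v)) hU
  set θ := Nat.find (hex s₀) with hθ₀
  have h1 : #(D.filter fun a => a.1 ∈ U ∧ a.2 ∈ T ∧ θ ≤ l a) ≤ K * #(U ∪ T) := by
    by_cases hm : m ≤ θ
    · rw [filter_false_of_mem fun a ha hc => by have := hG.lt a ha; omega]
      simp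
    · refine hi θ U T hUT fun s hs => ?_
      have h3 := hmax s hs
      rcases Nat.find_spec (hex s) with h | h
      · exact mono _ _ _ h3 h
      · omega
  have h2 : #(D.filter fun a => a.1 ∈ U ∧ a.2 ∈ T ∧ l a < θ - 1) ≤ K' * #(U ∪ T) := by
    by_cases h0 : θ = 0
    · rw [filter_false_of_mem fun a ha hc => by omega]
      simp
    · refine lo _ U T hUT fun t ht hP => ?_
      have h3 := hθ s₀ hs₀ t ht
      exact Nat.find_min (hex t) (m := θ - 1) (by omega) (.inl hP)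
  have h3 : #(D.filter fun a => a.1 ∈ U ∧ a.2 ∈ T ∧ l a = θ - 1) ≤ 1 := by
    refine card_le_one.2 fun a ha b hb => hG.injOn hUT (A := D.filter fun a => a.1 ∈ U ∧
      a.2 ∈ T ∧ l a = θ - 1) (fun c hc => ?_) ha hb ?_
    · rw [mem_filter] at hc
      exact ⟨hc.1, hc.2.1, hc.2.2.1⟩
    · rw [(mem_filter.1 ha).2.2.2, (mem_filter.1 hb).2.2.2]
  have h4 : 1 ≤ #(U ∪ T) := card_pos.2 (hU.mono subset_union_left)
  have h5 : D.filter (fun a => a.1 ∈ U ∧ a.2 ∈ T) ⊆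
      D.filter (fun a => a.1 ∈ U ∧ a.2 ∈ T ∧ θ ≤ l a) ∪
      D.filter (fun a => a.1 ∈ U ∧ a.2 ∈ T ∧ l a < θ - 1) ∪
      D.filter (fun a => a.1 ∈ U ∧ a.2 ∈ T ∧ l a = θ - 1) := by
    intro a ha
    rw [mem_filter] at ha
    simp only [mem_union, mem_filter, ha.1, ha.2.1, ha.2.2, true_and]
    omega
  have h6 := (card_le_card h5).trans ((card_union_le _ _).trans
    (Nat.add_le_add_right (card_union_le _ _) _))
  have h7 : (K + K' + 1) * #(U ∪ T) = K * #(U ∪ T) + K' * #(U ∪ T) + #(U ∪ T) := by ring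
  omega

lemma exists_new {S : Finset (V × V)} (f : V × V → V) (hf : Set.InjOn f S) (B : List V)
    (h : B.length < #S) : ∃ a ∈ S, f a ∉ B := by
  by_contra hc
  push Not at hc
  have := (card_le_card_of_injOn f (t := B.toFinset) (fun a ha => by simpa using hc a ha)
    hf).trans (List.toFinset_card_le B)
  omega

omit [DecidableEq V] in
lemma Avoid.bav (hG : Good D l m) {R : ℕ → ℕ → ℕ → ℕ → ℕ → Prop} (hav : Avoid D l R)
    (hR : ∀ p q r s t, R p q r s t → p ≠ q ∧ q ≠ r ∧ r ≠ s ∧ s ≠ t) {U T : Finset V}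
    (hUT : Disjoint U T) {A : Finset (V × V)} (hA : ∀ a ∈ A, a ∈ D ∧ a.1 ∈ U ∧ a.2 ∈ T) :
    BAv A l R := by
  rintro ⟨y, b₁⟩ h₁ ⟨x, _⟩ h₂ ⟨_, b₂⟩ h₃ ⟨z, _⟩ h₄ ⟨_, b₃⟩ h₅ ⟨⟩ ⟨⟩ ⟨⟩ ⟨⟩ k₁ k₂ hr
  obtain ⟨r1, r2, r3, r4⟩ := hR _ _ _ _ _ hr
  have d := disjoint_left.1 hUT
  obtain ⟨m1, u1, t1⟩ := hA _ h₁
  obtain ⟨m2, u2, -⟩ := hA _ h₂
  obtain ⟨m3, -, t3⟩ := hA _ h₃
  obtain ⟨m4, u4, -⟩ := hA _ h₄
  obtain ⟨m5, -, t5⟩ := hA _ h₅
  refine hav y b₁ x b₂ z b₃ ?_ m1 (hG.symm _ m2) m3 (hG.symm _ m4) m5 ?_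
  · simp only [List.nodup_cons, List.mem_cons, List.not_mem_nil, List.nodup_nil] at *
    grind (splits := 20)
  · rw [hG.lsymm b₁ x, hG.lsymm b₂ z]
    exact hr

lemma bound_one (hG : Good D l m) {R : ℕ → ℕ → ℕ → ℕ → ℕ → Prop} {R' : ℕ → ℕ → ℕ → ℕ → Prop}
    (hav : Avoid D l R) (hR : ∀ p q r s t, R p q r s t → p ≠ q ∧ q ≠ r ∧ r ≠ s ∧ s ≠ t)
    (hR' : ∀ p q r s t, p < q → p < r → p < s → p < t → R' q r s t → R p q r s t)
    (hR'' : ∀ q r s t, R' q r s t → q ≠ r ∧ r ≠ s ∧ s ≠ t) (K : ℕ)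
    (hK : ∀ (A : Finset (V × V)) (W : Finset V), (∀ a ∈ A, a.1 ∈ W ∧ a.2 ∈ W) → Set.InjOn l A →
      (∀ a ∈ A, l a < m) → TAv A l R' → BAv A l R → #A ≤ K * #W)
    (d : ℕ) (W : Finset V) (hW : #W ≤ 2 ^ d) :
    #(D.filter fun a => a.1 ∈ W ∧ a.2 ∈ W) ≤ 2 * (K + 7 + 1) * d * #W := by
  classical
  refine halve_thr hG (fun θ v => 5 ≤ #(D.filter fun a => a.2 = v ∧ l a < θ)) ?_ K 7 ?_ ?_ d W hW
  · refine fun θ θ' v h hP => hP.trans (card_le_card fun a ha => ?_)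
    rw [mem_filter] at ha ⊢
    exact ⟨ha.1, ha.2.1, by omega⟩
  · intro θ U T hUT hP
    have hA : ∀ a ∈ D.filter (fun a => a.1 ∈ U ∧ a.2 ∈ T ∧ θ ≤ l a), a ∈ D ∧ a.1 ∈ U ∧ a.2 ∈ T :=
      fun a ha => by rw [mem_filter] at ha; exact ⟨ha.1, ha.2.1, ha.2.2.1⟩
    refine hK _ _ (fun a ha => ⟨mem_union_left _ (hA a ha).2.1, mem_union_right _ (hA a ha).2.2⟩)
      (hG.injOn hUT hA) (fun a ha => hG.lt a (hA a ha).1) ?_ (hav.bav hG hR hUT hA)
    rintro ⟨b₁, x⟩ h₂ ⟨b₂, _⟩ h₃ ⟨_, z⟩ h₄ ⟨b₃, _⟩ h₅ ⟨⟩ ⟨⟩ ⟨⟩ k hr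
    rw [mem_filter] at h₂ h₃ h₄ h₅
    obtain ⟨⟨y, b⟩, hy, hy'⟩ := exists_new (S := D.filter fun a => a.2 = b₁ ∧ l a < θ) Prod.fst
      (fun a ha b hb h => Prod.ext h
        ((mem_filter.1 ha).2.1.trans (mem_filter.1 hb).2.1.symm)) [x, b₂, z, b₃] (hP b₁ h₂.2.1)
    obtain ⟨hy1, hy0, hy2⟩ := mem_filter.1 hy
    obtain rfl : b₁ = b := hy0.symm
    obtain ⟨r1, r2, r3⟩ := hR'' _ _ _ _ hr
    have d := disjoint_left.1 hUT
    have i1 := hG.irr _ hy1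
    refine hav y b₁ x b₂ z b₃ ?_ hy1 h₂.1 (hG.symm _ h₃.1) h₄.1 (hG.symm _ h₅.1) ?_
    · simp only [List.nodup_cons, List.mem_cons, List.not_mem_nil, List.nodup_nil] at *
      grind (splits := 20)
    · rw [hG.lsymm x b₂, hG.lsymm z b₃]
      exact hR' _ _ _ _ _ (by omega) (by omega) (by omega) (by omega) hr
  · intro θ U T hUT hP
    have := card_le_mul_card_image_of_maps_to (s := D.filter fun a => a.1 ∈ U ∧ a.2 ∈ T ∧ l a < θ)
      (t := T) (f := Prod.snd) (fun a ha => (mem_filter.1 ha).2.2.1) 4 fun t ht => by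
        refine Nat.le_of_lt_succ (lt_of_le_of_lt (card_le_card fun a ha => ?_) (not_le.1 (hP t ht)))
        simp only [mem_filter] at ha ⊢
        exact ⟨ha.1.1, ha.2, ha.1.2.2.2⟩
    have h2 : #T ≤ #(U ∪ T) := card_le_card subset_union_right
    omega

lemma bound_two (hG : Good D l m) (hav : Avoid D l R35412)
    (d : ℕ) (W : Finset V) (hW : #W ≤ 2 ^ d) :
    #(D.filter fun a => a.1 ∈ W ∧ a.2 ∈ W) ≤
      2 * (38 * (Nat.log 2 (m + 1) + 1) ^ 2 + 7 + 1) * d * #W := by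
  classical
  refine halve_thr hG (fun θ v => 4 ≤ #(D.filter fun a => a.2 = v ∧
    4 ≤ #(D.filter fun c => c.1 = a.1 ∧ l a < l c ∧ l c < θ))) ?_ _ 7 ?_ ?_ d W hW
  · refine fun θ θ' v h hP => hP.trans (card_le_card fun a ha => ?_)
    rw [mem_filter] at ha ⊢
    refine ⟨ha.1, ha.2.1, ha.2.2.trans (card_le_card fun c hc => ?_)⟩
    rw [mem_filter] at hc ⊢
    exact ⟨hc.1, hc.2.1, hc.2.2.1, by omega⟩
  · intro θ U T hUT hP
    have hA : ∀ a ∈ D.filter (fun a => a.1 ∈ U ∧ a.2 ∈ T ∧ θ ≤ l a), a ∈ D ∧ a.1 ∈ U ∧ a.2 ∈ T :=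
      fun a ha => by rw [mem_filter] at ha; exact ⟨ha.1, ha.2.1, ha.2.2.1⟩
    refine cross_35412 _
      (fun a ha => ⟨mem_union_left _ (hA a ha).2.1, mem_union_right _ (hA a ha).2.2⟩)
      (hG.injOn hUT hA) (fun a ha => hG.lt a (hA a ha).1) ?_
      (hav.bav hG (fun p q r s t h => by unfold R35412 at h; omega) hUT hA)
    rintro ⟨b₁, y⟩ h₁ ⟨_, x⟩ h₂ ⟨b₂, _⟩ h₃ ⟨⟩ ⟨⟩ k₁ k₂
    rw [mem_filter] at h₁ h₂ h₃
    obtain ⟨⟨z, b⟩, hz, hz'⟩ := exists_new (S := D.filter fun a => a.2 = b₂ ∧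
      4 ≤ #(D.filter fun c => c.1 = a.1 ∧ l a < l c ∧ l c < θ)) Prod.fst
      (fun a ha b hb h => Prod.ext h
        ((mem_filter.1 ha).2.1.trans (mem_filter.1 hb).2.1.symm)) [y, b₁, x] (hP b₂ h₃.2.1)
    obtain ⟨hz1, hz0, hz2⟩ := mem_filter.1 hz
    obtain rfl : b₂ = b := hz0.symm
    obtain ⟨⟨w, b₃⟩, hb, hb'⟩ := exists_new (S := D.filter fun c => c.1 = z ∧
      l (z, b₂) < l c ∧ l c < θ) Prod.snd (fun a ha b hb h => Prod.ext
        ((mem_filter.1 ha).2.1.trans (mem_filter.1 hb).2.1.symm) h) [y, b₁, x] hz2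
    obtain ⟨hb1, hb0, hb2, hb3⟩ := mem_filter.1 hb
    obtain rfl : z = w := hb0.symm
    have d := disjoint_left.1 hUT
    have i1 := hG.irr _ hz1
    have i2 := hG.irr _ hb1
    refine hav y b₁ x b₂ z b₃ ?_ (hG.symm _ h₁.1) h₂.1 (hG.symm _ h₃.1) (hG.symm _ hz1) hb1 ?_
    · simp only [List.nodup_cons, List.mem_cons, List.not_mem_nil, List.nodup_nil] at *
      grind (splits := 20)
    · rw [hG.lsymm y b₁, hG.lsymm x b₂, hG.lsymm b₂ z]
      unfold R35412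
      omega
  · intro θ U T hUT hP
    set L := D.filter fun a => a.1 ∈ U ∧ a.2 ∈ T ∧ l a < θ with hL
    have hA : ∀ a ∈ L, a ∈ D ∧ a.1 ∈ U ∧ a.2 ∈ T :=
      fun a ha => by rw [hL, mem_filter] at ha; exact ⟨ha.1, ha.2.1, ha.2.2.1⟩
    have hl' : Set.InjOn (fun a => OrderDual.toDual (l a)) L := fun a ha b hb hab =>
      hG.injOn hUT hA ha hb (by simpa using hab)
    have h1 := card_drop (κ := Prod.fst) U (fun a ha => (hA a ha).2.1) hl' 4
    have h2 := card_le_mul_card_image_of_maps_to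
      (s := L.filter fun a => 4 ≤ below L Prod.fst (fun a => OrderDual.toDual (l a)) a)
      (t := T) (f := Prod.snd) (fun a ha => (hA a (mem_filter.1 ha).1).2.2) 3 fun t ht => by
        refine Nat.le_of_lt_succ (lt_of_le_of_lt (card_le_card fun a ha => ?_) (not_le.1 (hP t ht)))
        rw [mem_filter, mem_filter] at ha
        refine mem_filter.2 ⟨(hA a ha.1.1).1, ha.2, ha.1.2.trans (card_le_card fun c hc => ?_)⟩
        rw [mem_filter, hL, mem_filter] at hc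
        exact mem_filter.2 ⟨hc.1.1, hc.2.1, by simpa using hc.2.2, hc.1.2.2.2⟩
    have h3 : #T ≤ #(U ∪ T) := card_le_card subset_union_right
    have h4 : #U ≤ #(U ∪ T) := card_le_card subset_union_left
    omega

/-- The bound for each of the four label patterns. -/
theorem bound (hG : Good D l m)
    (hav : Avoid D l R14523 ∨ Avoid D l R14532 ∨ Avoid D l R15423 ∨ Avoid D l R35412)
    (d : ℕ) (W : Finset V) (hW : #W ≤ 2 ^ d) :
    #(D.filter fun a => a.1 ∈ W ∧ a.2 ∈ W) ≤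
      2 * (38 * (Nat.log 2 (m + 1) + 1) ^ 2 + 7 + 1) * d * #W := by
  rcases hav with h | h | h | h
  · exact bound_one hG (R' := T14523) h (fun p q r s t h => by unfold R14523 at h; omega)
      (fun p q r s t _ _ _ _ h => by unfold T14523 at h; unfold R14523; omega)
      (fun q r s t h => by unfold T14523 at h; omega) _ (fun A W => cross_14523 W) d W hW
  · exact bound_one hG (R' := T14532) h (fun p q r s t h => by unfold R14532 at h; omega)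
      (fun p q r s t _ _ _ _ h => by unfold T14532 at h; unfold R14532; omega)
      (fun q r s t h => by unfold T14532 at h; omega) _ (fun A W => cross_14532 W) d W hW
  · exact bound_one hG (R' := T15423) h (fun p q r s t h => by unfold R15423 at h; omega)
      (fun p q r s t _ _ _ _ h => by unfold T15423 at h; unfold R15423; omega)
      (fun q r s t h => by unfold T15423 at h; omega) _ (fun A W => cross_15423 W) d W hW
  · exact bound_two hG h d W hW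

end Pool.Agent.MP_e6c106_co.H32
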